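import Pool.Agent.Run7.h540.Main2

/-!
A complete simple theory without stable forking.
-/

open Run7.h540

theorem Pool.Agent.Results.MP_aa7e4d_lc.StableForkingFails.result :
    ∃ (L : FirstOrder.Language.{0, 0}) (T : L.Theory),
      T.IsComplete ∧ SFC.Simple T ∧ ¬ SFC.HasStableForking T :=
  Run7.h540.main2
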